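import Mathlib
import Pool.Agent.LibOK71.R4
import Pool.Agent.LibOK71.F1

/-! # Fully onto extensions of subgroups of the free group of rank two are decidable -/

set_option autoImplicit false

namespace Pool.Agent.Results.MP_71c951_al.FullyOnto

/-- The Stallings graph `Γ_b(K)` of a subgroup `K` of a free group `G` with respect to the basis `b`
has an edge with letter `e` which begins at the vertex `K u`: some reduced word (in the basis `b`)
of an element of `K` is `p e q` with `K p = K u`. -/
def HasEdge {ι G : Type} [DecidableEq ι] [Group G] (b : FreeGroupBasis ι G) (K : Subgroup G)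
    (u : G) (e : ι × Bool) : Prop :=
  ∃ k ∈ K, ∃ p q : List (ι × Bool), (b.repr k).toWord = p ++ e :: q ∧
    b.repr.symm (FreeGroup.mk p) * u⁻¹ ∈ K

/-- The map `Γ_b(H) → Γ_b(K)`, `H u ↦ K u`, is onto: every edge of `Γ_b(K)` is the image of an edge
of `Γ_b(H)`. -/
def OntoFor {ι G : Type} [DecidableEq ι] [Group G] (b : FreeGroupBasis ι G)
    (H K : Subgroup G) : Prop :=
  ∀ (u : G) (e : ι × Bool), HasEdge b K u e → ∃ u' : G, u' * u⁻¹ ∈ K ∧ HasEdge b H u' e

/-- the free group of rank 2 -/
abbrev F : Type := FreeGroup (Fin 2)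

/-- `H ≤ K` is a fully onto extension: for every finite alphabet `B` which contains (by an injective
map `j`) the alphabet `Fin 2` and for every basis `b` of the free group on `B` the map between the
graphs is onto -/
def IsFullyOnto (H K : Subgroup F) : Prop :=
  ∀ (B : Type) [Finite B] (j : Fin 2 ↪ B) (ι : Type) [DecidableEq ι]
    (b : FreeGroupBasis ι (FreeGroup B)),
    OntoFor b (H.map (FreeGroup.map j)) (K.map (FreeGroup.map j))

/-- the size of a finite list of elements -/
def size (S : List F) : ℕ := (S.map fun s => s.toWord.length + 1).sum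

/-- `N(n)` -/
def N (n : ℕ) : ℕ := 2 ^ (4 * (n + 1) ^ 2 * 2 ^ (4 * (n + 1) ^ 2))

/-- the bound for the bases -/
def bound (n : ℕ) : ℕ := 2 ^ (4 * N n ^ 3 + 6) * (n + 1)

/-- the inclusion of the free group of rank 2 in the free group of rank 3 -/
def incl : F →* FreeGroup (Fin 3) := FreeGroup.map Fin.castSucc

private theorem key {ι G : Type} [DecidableEq ι] [Group G] (b : FreeGroupBasis ι G)
    {H K : Subgroup G} (hHK : H ≤ K) :
    OntoFor b H K ↔ OK71.OntoStd (H.map b.repr.toMonoidHom) (K.map b.repr.toMonoidHom) := by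
  have hm : ∀ (G' : Subgroup G) (x : FreeGroup ι),
      x ∈ G'.map b.repr.toMonoidHom ↔ b.repr.symm x ∈ G' := by
    intro G' x
    constructor
    · rintro ⟨g, hg, rfl⟩
      show b.repr.symm (b.repr g) ∈ G'
      rw [MulEquiv.symm_apply_apply]
      exact hg
    · intro hx
      exact ⟨b.repr.symm x, hx, b.repr.apply_symm_apply x⟩
  constructor
  · intro h1 k hk u v e hw
    obtain ⟨u', hu', k', hk', p, q, hp, hpu⟩ := h1 (b.repr.symm (FreeGroup.mk u)) e
      ⟨b.repr.symm k, (hm K k).1 hk, u, v, by rw [MulEquiv.apply_symm_apply]; exact hw, by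
        rw [mul_inv_cancel]; exact K.one_mem⟩
    refine ⟨b.repr k', ⟨k', hk', rfl⟩, p, q, hp, ?_⟩
    rw [hm]
    have h2 : b.repr.symm (FreeGroup.mk p * (FreeGroup.mk u)⁻¹) =
        (b.repr.symm (FreeGroup.mk p) * u'⁻¹) * (u' * (b.repr.symm (FreeGroup.mk u))⁻¹) := by
      rw [map_mul, map_inv]
      group
    rw [h2]
    exact K.mul_mem (hHK hpu) hu'
  · intro h1 u e hu
    obtain ⟨k, hk, p, q, hp, hpu⟩ := hu
    obtain ⟨k', hk', u1, v1, h2, h3⟩ := h1 (b.repr k) ⟨k, hk, rfl⟩ p q e hp
    rw [hm] at hk' h3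
    refine ⟨b.repr.symm (FreeGroup.mk u1), ?_, b.repr.symm k', hk', u1, v1, ?_, ?_⟩
    · have h4 : b.repr.symm (FreeGroup.mk u1) * u⁻¹ =
          b.repr.symm (FreeGroup.mk u1 * (FreeGroup.mk p)⁻¹) *
            (b.repr.symm (FreeGroup.mk p) * u⁻¹) := by
        rw [map_mul, map_inv]
        group
      rw [h4]
      exact K.mul_mem h3 hpu
    · rw [MulEquiv.apply_symm_apply]
      exact h2
    · rw [mul_inv_cancel]
      exact H.one_mem

/-- Let `S`, `T` be finite lists of elements of the free group of rank 2, `H = ⟨S⟩ ≤ K = ⟨T⟩`. Then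
(1) `H ≤ K` is fully onto if and only if `Γ_b(H) → Γ_b(K)` is onto for the finitely many bases `b`
of the free group of rank 3 whose elements have length at most `bound (size S + size T)`; (2) for a
basis `b` of the free group of rank 3 this is the case if and only if for every initial segment
`p e` of the `b`-word of a generator `t ∈ T` there is an initial segment `p' e` of the `b`-word of
some `s` with `s ∈ S` or `s⁻¹ ∈ S` such that `p' p⁻¹ ∈ K`. -/
theorem result (S T : List F)
    (h : Subgroup.closure {s | s ∈ S} ≤ Subgroup.closure {t | t ∈ T}) :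
    (IsFullyOnto (Subgroup.closure {s | s ∈ S}) (Subgroup.closure {t | t ∈ T}) ↔
      ∀ b : FreeGroupBasis (Fin 3) (FreeGroup (Fin 3)),
        (∀ i, (b i).toWord.length ≤ bound (size S + size T)) →
          OntoFor b ((Subgroup.closure {s | s ∈ S}).map incl)
            ((Subgroup.closure {t | t ∈ T}).map incl)) ∧
    ∀ b : FreeGroupBasis (Fin 3) (FreeGroup (Fin 3)),
      (OntoFor b ((Subgroup.closure {s | s ∈ S}).map incl)
          ((Subgroup.closure {t | t ∈ T}).map incl) ↔
        ∀ t ∈ T, ∀ (p q : List (Fin 3 × Bool)) (e : Fin 3 × Bool),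
          (b.repr (incl t)).toWord = p ++ e :: q → ∃ s, (s ∈ S ∨ s⁻¹ ∈ S) ∧
            ∃ p' q' : List (Fin 3 × Bool), (b.repr (incl s)).toWord = p' ++ e :: q' ∧
              b.repr.symm (FreeGroup.mk p' * (FreeGroup.mk p)⁻¹) ∈
                (Subgroup.closure {t | t ∈ T}).map incl) := by
  obtain ⟨H, hH⟩ : ∃ H, H = Subgroup.closure {s | s ∈ S} := ⟨_, rfl⟩
  obtain ⟨K, hK⟩ : ∃ K, K = Subgroup.closure {t | t ∈ T} := ⟨_, rfl⟩
  have hHK : H ≤ K := by rw [hH, hK]; exact h
  have hincl : incl = OK71.j3 := by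
    ext i
    fin_cases i <;> simp [incl, OK71.j3]
  have hcl : ∀ (f : F →* FreeGroup (Fin 3)) (R : List F),
      (Subgroup.closure {r | r ∈ R}).map f = Subgroup.closure {r | r ∈ R.map f} := by
    intro f R
    rw [MonoidHom.map_closure]
    congr 1
    ext k
    simp [List.mem_map]
  constructor
  · rw [← hH, ← hK]
    constructor
    · intro h1 b _
      exact h1 (Fin 3) Fin.castSuccEmb (Fin 3) b
    · intro h1 B _ j ι _ b
      rw [key b (Subgroup.map_mono hHK), Subgroup.map_map, Subgroup.map_map, hH, hK]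
      refine OK71.main2 S T h ?_ ?_
      · intro Ψ hΨ
        have h3 := h1 (FreeGroupBasis.ofRepr Ψ.symm) hΨ
        rw [key _ (Subgroup.map_mono hHK), hincl, hH, hK] at h3
        have h4 : ∀ G : Subgroup (FreeGroup (Fin 3)),
            OK71.pb Ψ G = G.map (FreeGroupBasis.ofRepr Ψ.symm).repr.toMonoidHom := by
          intro G
          ext x
          constructor
          · intro hx
            exact ⟨Ψ x, hx, Ψ.symm_apply_apply x⟩
          · rintro ⟨g, hg, rfl⟩
            show Ψ (Ψ.symm g) ∈ G
            rw [MulEquiv.apply_symm_apply]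
            exact hg
        rw [h4, h4]
        exact h3
      · intro x y hxy
        have h5 : FreeGroup.map j x = FreeGroup.map j y := b.repr.injective hxy
        exact FreeGroup.map_injective j.injective h5
  · intro b
    rw [key b (Subgroup.map_mono h), Subgroup.map_map, Subgroup.map_map, hcl, hcl]
    have hle : Subgroup.closure {r | r ∈ S.map (b.repr.toMonoidHom.comp incl)} ≤
        Subgroup.closure {r | r ∈ T.map (b.repr.toMonoidHom.comp incl)} := by
      rw [← hcl, ← hcl]
      exact Subgroup.map_mono h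
    have hmem : ∀ x, x ∈ Subgroup.closure {r | r ∈ T.map (b.repr.toMonoidHom.comp incl)} ↔
        b.repr.symm x ∈ (Subgroup.closure {t | t ∈ T}).map incl := by
      intro x
      rw [← hcl, ← Subgroup.map_map]
      constructor
      · rintro ⟨g, hg, rfl⟩
        show b.repr.symm (b.repr g) ∈ _
        rw [MulEquiv.symm_apply_apply]
        exact hg
      · intro hx
        exact ⟨b.repr.symm x, hx, b.repr.apply_symm_apply x⟩
    rw [OK71.onto_fin hle]
    constructor
    · intro h1 t ht p q e hw
      obtain ⟨s', hs', p', q', h2, h3⟩ := h1 (b.repr (incl t))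
        (List.mem_map.2 ⟨t, ht, rfl⟩) p q e hw
      rcases hs' with hs' | hs'
      · obtain ⟨r, hr, hr2⟩ := List.mem_map.1 hs'
        refine ⟨r, Or.inl hr, p', q', ?_, (hmem _).1 h3⟩
        rw [← h2, ← hr2]
        rfl
      · obtain ⟨r, hr, hr2⟩ := List.mem_map.1 hs'
        refine ⟨r⁻¹, Or.inr (by rw [inv_inv]; exact hr), p', q', ?_, (hmem _).1 h3⟩
        rw [← h2, ← inv_inv s', ← hr2, map_inv, map_inv]
        rfl
    · intro h1 t' ht' p q e hw
      obtain ⟨t, ht, rfl⟩ := List.mem_map.1 ht'
      obtain ⟨s', hs', p', q', h2, h3⟩ := h1 t ht p q e hw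
      refine ⟨b.repr (incl s'), ?_, p', q', h2, (hmem _).2 h3⟩
      rcases hs' with hs' | hs'
      · exact Or.inl (List.mem_map.2 ⟨s', hs', rfl⟩)
      · exact Or.inr (List.mem_map.2 ⟨s'⁻¹, hs', by rw [map_inv]; rfl⟩)

end Pool.Agent.Results.MP_71c951_al.FullyOnto
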