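import Mathlib
import Pool.Agent.LibOK71.E3
import Pool.Agent.LibOK71.F1

/-! # Onto extensions of subgroups of the free group of rank two are decidable -/

set_option autoImplicit false

namespace Pool.Agent.Results.MP_71c951_al.RankTwo

/-- the free group of rank 2 -/
abbrev F : Type := FreeGroup (Fin 2)

/-- The Stallings graph `Γ_b(K)` of `K` with respect to the basis `b` has an edge with letter `e`
which begins at the vertex `K u`: some reduced word (in the basis `b`) of an element of `K` is
`p e q` with `K p = K u`. -/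
def HasEdge (b : FreeGroupBasis (Fin 2) F) (K : Subgroup F) (u : F) (e : Fin 2 × Bool) : Prop :=
  ∃ k ∈ K, ∃ p q : List (Fin 2 × Bool), (b.repr k).toWord = p ++ e :: q ∧
    b.repr.symm (FreeGroup.mk p) * u⁻¹ ∈ K

/-- The map `Γ_b(H) → Γ_b(K)`, `H u ↦ K u`, is onto: every edge of `Γ_b(K)` is the image of an edge
of `Γ_b(H)`. -/
def OntoFor (b : FreeGroupBasis (Fin 2) F) (H K : Subgroup F) : Prop :=
  ∀ (u : F) (e : Fin 2 × Bool), HasEdge b K u e → ∃ u' : F, u' * u⁻¹ ∈ K ∧ HasEdge b H u' e

/-- `H ≤ K` is an onto extension -/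
def IsOnto (H K : Subgroup F) : Prop := ∀ b : FreeGroupBasis (Fin 2) F, OntoFor b H K

/-- the size of a finite list of elements -/
def size (S : List F) : ℕ := (S.map fun s => s.toWord.length + 1).sum

/-- `N(n)` -/
def N (n : ℕ) : ℕ := 2 ^ (4 * (n + 1) ^ 2 * 2 ^ (4 * (n + 1) ^ 2))

/-- the bound for the bases -/
def bound (n : ℕ) : ℕ := 2 ^ (2 * N n ^ 3 + 4) * (n + 1)

/-- Let `S`, `T` be finite lists of elements of the free group of rank 2, `H = ⟨S⟩ ≤ K = ⟨T⟩`. Then
(1) `H ≤ K` is onto if and only if `Γ_b(H) → Γ_b(K)` is onto for the finitely many bases `b` whose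
elements have length at most `bound (size S + size T)`; (2) for a basis `b` this is the case if and
only if for every initial segment `p e` of the `b`-word of a generator `t ∈ T` there is an initial
segment `p' e` of the `b`-word of some `s` with `s ∈ S` or `s⁻¹ ∈ S` such that `p' p⁻¹ ∈ K`. -/
theorem result (S T : List F)
    (h : Subgroup.closure {s | s ∈ S} ≤ Subgroup.closure {t | t ∈ T}) :
    (IsOnto (Subgroup.closure {s | s ∈ S}) (Subgroup.closure {t | t ∈ T}) ↔
      ∀ b : FreeGroupBasis (Fin 2) F, (∀ i, (b i).toWord.length ≤ bound (size S + size T)) →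
        OntoFor b (Subgroup.closure {s | s ∈ S}) (Subgroup.closure {t | t ∈ T})) ∧
    ∀ b : FreeGroupBasis (Fin 2) F,
      (OntoFor b (Subgroup.closure {s | s ∈ S}) (Subgroup.closure {t | t ∈ T}) ↔
        ∀ t ∈ T, ∀ (p q : List (Fin 2 × Bool)) (e : Fin 2 × Bool),
          (b.repr t).toWord = p ++ e :: q → ∃ s, (s ∈ S ∨ s⁻¹ ∈ S) ∧
            ∃ p' q' : List (Fin 2 × Bool), (b.repr s).toWord = p' ++ e :: q' ∧
              b.repr.symm (FreeGroup.mk p' * (FreeGroup.mk p)⁻¹) ∈
                Subgroup.closure {t | t ∈ T}) := by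
  obtain ⟨H, hH⟩ : ∃ H, H = Subgroup.closure {s | s ∈ S} := ⟨_, rfl⟩
  obtain ⟨K, hK⟩ : ∃ K, K = Subgroup.closure {t | t ∈ T} := ⟨_, rfl⟩
  have hHK : H ≤ K := by rw [hH, hK]; exact h
  have key : ∀ b : FreeGroupBasis (Fin 2) F,
      OntoFor b H K ↔ OK71.OntoStd (OK71.pb b.repr.symm H) (OK71.pb b.repr.symm K) := by
    intro b
    constructor
    · intro h1 k hk u v e hw
      obtain ⟨u', hu', k', hk', p, q, hp, hpu⟩ := h1 (b.repr.symm (FreeGroup.mk u)) e
        ⟨b.repr.symm k, hk, u, v, by rw [MulEquiv.apply_symm_apply]; exact hw, by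
          rw [mul_inv_cancel]; exact K.one_mem⟩
      refine ⟨b.repr k', ?_, p, q, hp, ?_⟩
      · show b.repr.symm (b.repr k') ∈ H
        rw [MulEquiv.symm_apply_apply]
        exact hk'
      · show b.repr.symm (FreeGroup.mk p * (FreeGroup.mk u)⁻¹) ∈ K
        have h2 : b.repr.symm (FreeGroup.mk p * (FreeGroup.mk u)⁻¹) =
            (b.repr.symm (FreeGroup.mk p) * u'⁻¹) *
              (u' * (b.repr.symm (FreeGroup.mk u))⁻¹) := by
          rw [map_mul, map_inv]
          group
        rw [h2]
        exact K.mul_mem (hHK hpu) hu'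
    · intro h1 u e hu
      obtain ⟨k, hk, p, q, hp, hpu⟩ := hu
      obtain ⟨k', hk', u1, v1, h2, h3⟩ := h1 (b.repr k) (by
        show b.repr.symm (b.repr k) ∈ K
        rw [MulEquiv.symm_apply_apply]
        exact hk) p q e hp
      refine ⟨b.repr.symm (FreeGroup.mk u1), ?_, b.repr.symm k', hk', u1, v1, ?_, ?_⟩
      · have h4 : b.repr.symm (FreeGroup.mk u1) * u⁻¹ =
            b.repr.symm (FreeGroup.mk u1 * (FreeGroup.mk p)⁻¹) *
              (b.repr.symm (FreeGroup.mk p) * u⁻¹) := by
          rw [map_mul, map_inv]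
          group
        rw [h4]
        exact K.mul_mem h3 hpu
      · rw [MulEquiv.apply_symm_apply]
        exact h2
      · rw [mul_inv_cancel]
        exact H.one_mem
  have hcl : ∀ (b : FreeGroupBasis (Fin 2) F) (R : List F),
      OK71.pb b.repr.symm (Subgroup.closure {r | r ∈ R}) =
        Subgroup.closure {r | r ∈ R.map b.repr} := by
    intro b R
    have h1 : OK71.pb b.repr.symm (Subgroup.closure {r | r ∈ R}) =
        (Subgroup.closure {r | r ∈ R}).map b.repr.toMonoidHom := by
      ext k
      rw [Subgroup.mem_map]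
      constructor
      · intro hk
        exact ⟨b.repr.symm k, hk, b.repr.apply_symm_apply k⟩
      · rintro ⟨g, hg, rfl⟩
        show b.repr.symm (b.repr g) ∈ Subgroup.closure {r | r ∈ R}
        rw [MulEquiv.symm_apply_apply]
        exact hg
    rw [h1, MonoidHom.map_closure]
    congr 1
    ext k
    simp [List.mem_map]
  constructor
  · rw [← hH, ← hK]
    have hmain := OK71.main S T h
    rw [← hH, ← hK] at hmain
    constructor
    · intro h1 b _
      exact h1 b
    · intro h1
      have h2 : OK71.Onto H K := by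
        rw [hmain]
        intro ψ hψ
        have h3 := h1 (FreeGroupBasis.ofRepr ψ.symm) hψ
        rw [key] at h3
        exact h3
      intro b
      rw [key]
      exact h2 b.repr.symm
  · intro b
    rw [← hH, ← hK, key b, hH, hK, hcl, hcl]
    have hle : Subgroup.closure {r | r ∈ S.map b.repr} ≤
        Subgroup.closure {r | r ∈ T.map b.repr} := by
      rw [← hcl, ← hcl]
      exact OK71.pb_mono _ h
    rw [OK71.onto_fin hle]
    constructor
    · intro h1 t ht p q e hw
      obtain ⟨s', hs', p', q', h2, h3⟩ := h1 (b.repr t) (List.mem_map.2 ⟨t, ht, rfl⟩) p q e hw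
      refine ⟨b.repr.symm s', ?_, p', q', by rw [MulEquiv.apply_symm_apply]; exact h2, ?_⟩
      · rcases hs' with hs' | hs'
        · left
          obtain ⟨r, hr, hr2⟩ := List.mem_map.1 hs'
          rw [← hr2, MulEquiv.symm_apply_apply]
          exact hr
        · right
          obtain ⟨r, hr, hr2⟩ := List.mem_map.1 hs'
          rw [← map_inv, ← hr2, MulEquiv.symm_apply_apply]
          exact hr
      · rw [← hcl] at h3
        exact h3
    · intro h1 t' ht' p q e hw
      obtain ⟨t, ht, rfl⟩ := List.mem_map.1 ht'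
      obtain ⟨s', hs', p', q', h2, h3⟩ := h1 t ht p q e hw
      refine ⟨b.repr s', ?_, p', q', h2, ?_⟩
      · rcases hs' with hs' | hs'
        · exact Or.inl (List.mem_map.2 ⟨s', hs', rfl⟩)
        · exact Or.inr (List.mem_map.2 ⟨s'⁻¹, hs', map_inv _ _⟩)
      · rw [← hcl]
        exact h3

end Pool.Agent.Results.MP_71c951_al.RankTwo
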